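import Pool.Agent.W710.DP.Stm2

/-! DP-GEN: the letter of a small step. -/

set_option autoImplicit false

namespace Pool.Agent.W357.DP
open Pool.Agent.W710.DP MeasureTheory Filter Topology

local notation "sT" => Real.smoothTransition

lemma lip_of_deriv (f f' : ℝ → ℝ) (C : ℝ) (h : ∀ x, HasDerivAt f (f' x) x)
    (hb : ∀ x, |f' x| ≤ C) (x y : ℝ) : |f x - f y| ≤ C * |x - y| := by
  have := Convex.norm_image_sub_le_of_norm_hasDerivWithin_le (f := f) (f' := f')
    (s := Set.univ) (C := C) (x := y) (y := x) (fun x _ => (h x).hasDerivWithinAt)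
    (fun x _ => by simpa [Real.norm_eq_abs] using hb x) convex_univ trivial trivial
  simpa [Real.norm_eq_abs] using this

lemma sT_smooth : ContDiff ℝ ((⊤ : ℕ∞) : WithTop ℕ∞) sT := Real.smoothTransition.contDiff

lemma sT_deriv_smooth : ContDiff ℝ ((⊤ : ℕ∞) : WithTop ℕ∞) (deriv sT) := by
  have h := (contDiff_infty_iff_deriv (𝕜 := ℝ) (f := sT)).1 sT_smooth
  exact h.2

lemma sT_deriv2_cont : Continuous (deriv (deriv sT)) := by
  have h := (contDiff_infty_iff_deriv (𝕜 := ℝ) (f := deriv sT)).1 sT_deriv_smooth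
  exact h.2.continuous

lemma sT_hd (t : ℝ) : HasDerivAt sT (deriv sT t) t :=
  (sT_smooth.differentiable (by simp) t).hasDerivAt

lemma sT_hd2 (t : ℝ) : HasDerivAt (deriv sT) (deriv (deriv sT) t) t :=
  (sT_deriv_smooth.differentiable (by simp) t).hasDerivAt

lemma sT_d0 {t : ℝ} (h : t ≤ 0) : deriv sT t = 0 := by
  apply IsLocalMin.deriv_eq_zero
  apply Eventually.of_forall
  intro y
  rw [Real.smoothTransition.zero_of_nonpos h]
  exact Real.smoothTransition.nonneg y

lemma sT_d1 {t : ℝ} (h : 1 ≤ t) : deriv sT t = 0 := by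
  apply IsLocalMax.deriv_eq_zero
  apply Eventually.of_forall
  intro y
  rw [Real.smoothTransition.one_of_one_le h]
  exact Real.smoothTransition.le_one y

lemma bd_of_supp (f : ℝ → ℝ) (hf : Continuous f) (h0 : ∀ t, t < 0 → f t = 0)
    (h1 : ∀ t, 1 < t → f t = 0) : ∃ B : ℝ, 0 ≤ B ∧ ∀ t, |f t| ≤ B := by
  obtain ⟨B, hB⟩ := (isCompact_Icc (a := (0 : ℝ)) (b := 1)).exists_bound_of_continuousOn
    hf.continuousOn
  refine ⟨max B 0, le_max_right _ _, fun t => ?_⟩
  rcases lt_or_ge t 0 with h | h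
  · simp [h0 t h]
  rcases lt_or_ge 1 t with h' | h'
  · simp [h1 t h']
  exact (hB t ⟨h, h'⟩).trans (le_max_left _ _)

lemma sT_bounds : ∃ B : ℝ, 0 ≤ B ∧ (∀ t, |deriv sT t| ≤ B) ∧ ∀ t, |deriv (deriv sT) t| ≤ B := by
  obtain ⟨B1, h1, h1'⟩ := bd_of_supp (deriv sT) sT_deriv_smooth.continuous
    (fun t h => sT_d0 h.le) (fun t h => sT_d1 h.le)
  obtain ⟨B2, h2, h2'⟩ := bd_of_supp (deriv (deriv sT)) sT_deriv2_cont
    (fun t h => by
      have : deriv sT =ᶠ[𝓝 t] fun _ => (0 : ℝ) := by
        filter_upwards [Iio_mem_nhds h] with y hy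
        exact sT_d0 (le_of_lt hy)
      rw [this.deriv_eq]; simp)
    (fun t h => by
      have : deriv sT =ᶠ[𝓝 t] fun _ => (0 : ℝ) := by
        filter_upwards [Ioi_mem_nhds h] with y hy
        exact sT_d1 (le_of_lt hy)
      rw [this.deriv_eq]; simp)
  exact ⟨max B1 B2, h1.trans (le_max_left _ _), fun t => (h1' t).trans (le_max_left _ _),
    fun t => (h2' t).trans (le_max_right _ _)⟩

/-! ### bounded Lipschitz functions -/

def BL (f : ℝ → ℝ → ℝ) : Prop := ∃ K : ℝ, 0 ≤ K ∧ (∀ x s, |f x s| ≤ K) ∧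
  ∀ x s x' s', |f x s - f x' s'| ≤ K * (|x - x'| + |s - s'|)

lemma BL.add {f g : ℝ → ℝ → ℝ} (hf : BL f) (hg : BL g) : BL (fun x s => f x s + g x s) := by
  obtain ⟨K, hK, a1, a2⟩ := hf
  obtain ⟨L, hL, b1, b2⟩ := hg
  refine ⟨K + L, by positivity, fun x s => ?_, fun x s x' s' => ?_⟩
  · exact (abs_add_le _ _).trans (add_le_add (a1 x s) (b1 x s))
  · have : f x s + g x s - (f x' s' + g x' s') = (f x s - f x' s') + (g x s - g x' s') := by ring
    rw [this]
    refine (abs_add_le _ _).trans ?_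
    have := add_le_add (a2 x s x' s') (b2 x s x' s')
    linarith

lemma BL.mul {f g : ℝ → ℝ → ℝ} (hf : BL f) (hg : BL g) : BL (fun x s => f x s * g x s) := by
  obtain ⟨K, hK, a1, a2⟩ := hf
  obtain ⟨L, hL, b1, b2⟩ := hg
  refine ⟨2 * (K * L), by positivity, fun x s => ?_, fun x s x' s' => ?_⟩
  · rw [abs_mul]
    have := mul_le_mul (a1 x s) (b1 x s) (abs_nonneg _) hK
    have h0 : 0 ≤ K * L := by positivity
    linarith
  · have : f x s * g x s - f x' s' * g x' s' =
      f x s * (g x s - g x' s') + g x' s' * (f x s - f x' s') := by ring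
    rw [this]
    refine (abs_add_le _ _).trans ?_
    rw [abs_mul, abs_mul]
    have h1 := mul_le_mul (a1 x s) (b2 x s x' s') (abs_nonneg _) hK
    have h2 := mul_le_mul (b1 x' s') (a2 x s x' s') (abs_nonneg _) hL
    linarith

lemma BL_of_small {δ : ℝ} {u : ℝ × ℝ → ℝ} (h : SmallC1 δ u) (hδ : 0 ≤ δ) :
    BL (fun x s => u (x, s)) := by
  refine ⟨δ, hδ, fun x s => (h.2 (x, s)).1, fun x s x' s' => ?_⟩
  have := Convex.norm_image_sub_le_of_norm_fderiv_le (𝕜 := ℝ) (f := u) (s := Set.univ)
    (C := δ) (x := (x', s')) (y := (x, s))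
    (fun p _ => h.1.differentiable (by simp) p) (fun p _ => (h.2 p).2) convex_univ
    trivial trivial
  rw [Real.norm_eq_abs] at this
  refine this.trans (mul_le_mul_of_nonneg_left ?_ hδ)
  rw [Prod.mk_sub_mk, Prod.norm_mk, Real.norm_eq_abs, Real.norm_eq_abs]
  exact max_le (by linarith [abs_nonneg (s - s')]) (by linarith [abs_nonneg (x - x')])

/-- the primitive -/
noncomputable def G0 (q : ℝ × ℝ → ℝ) (x S : ℝ) : ℝ := ∫ t in (0 : ℝ)..S, q (x, t)

lemma BL_G0 {δ : ℝ} {q : ℝ × ℝ → ℝ} (h : SmallC1 δ q) (hδ : 0 ≤ δ) (R : ℝ) (hR : 0 ≤ R) :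
    BL (fun x s => G0 q x (max 0 (min s R))) := by
  have hq : Continuous q := h.1.continuous
  have hc : ∀ s : ℝ, 0 ≤ max 0 (min s R) ∧ max 0 (min s R) ≤ R := fun s =>
    ⟨le_max_left _ _, max_le hR (min_le_right _ _)⟩
  have hqx : ∀ x : ℝ, Continuous (fun t => q (x, t)) := fun x => by fun_prop
  have hl : ∀ x s x' s', |q (x, s) - q (x', s')| ≤ δ * (|x - x'| + |s - s'|) := by
    intro x s x' s'
    have := Convex.norm_image_sub_le_of_norm_fderiv_le (𝕜 := ℝ) (f := q) (s := Set.univ)
      (C := δ) (x := (x', s')) (y := (x, s))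
      (fun p _ => h.1.differentiable (by simp) p) (fun p _ => (h.2 p).2) convex_univ
      trivial trivial
    rw [Real.norm_eq_abs] at this
    refine this.trans (mul_le_mul_of_nonneg_left ?_ hδ)
    rw [Prod.mk_sub_mk, Prod.norm_mk, Real.norm_eq_abs, Real.norm_eq_abs]
    exact max_le (by linarith [abs_nonneg (s - s')]) (by linarith [abs_nonneg (x - x')])
  refine ⟨δ * (R + 1), by positivity, fun x s => ?_, fun x s x' s' => ?_⟩
  · have := intervalIntegral.norm_integral_le_of_norm_le_const (a := 0)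
      (b := max 0 (min s R)) (f := fun t => q (x, t)) (C := δ)
      (fun t _ => by simpa [Real.norm_eq_abs] using (h.2 (x, t)).1)
    rw [Real.norm_eq_abs] at this
    refine this.trans (mul_le_mul_of_nonneg_left ?_ hδ)
    rw [sub_zero, abs_of_nonneg (hc s).1]
    linarith [(hc s).2]
  · have e1 : G0 q x (max 0 (min s R)) - G0 q x' (max 0 (min s' R)) =
      (∫ t in (0:ℝ)..(max 0 (min s R)), (q (x, t) - q (x', t))) +
      ∫ t in (max 0 (min s' R))..(max 0 (min s R)), q (x', t) := by
      have := intervalIntegral.integral_add_adjacent_intervals (μ := volume)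
        (((hqx x').intervalIntegrable (0:ℝ) (max 0 (min s' R))))
        (((hqx x').intervalIntegrable (max 0 (min s' R)) (max 0 (min s R))))
      rw [intervalIntegral.integral_sub ((hqx x).intervalIntegrable _ _)
        ((hqx x').intervalIntegrable _ _)]
      unfold G0
      rw [← this]
      ring
    rw [e1]
    refine (abs_add_le _ _).trans ?_
    have h1 := intervalIntegral.norm_integral_le_of_norm_le_const (a := 0)
      (b := max 0 (min s R)) (f := fun t => q (x, t) - q (x', t)) (C := δ * |x - x'|)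
      (fun t _ => by simpa [Real.norm_eq_abs] using hl x t x' t)
    have h2 := intervalIntegral.norm_integral_le_of_norm_le_const (a := max 0 (min s' R))
      (b := max 0 (min s R)) (f := fun t => q (x', t)) (C := δ)
      (fun t _ => by simpa [Real.norm_eq_abs] using (h.2 (x', t)).1)
    rw [Real.norm_eq_abs, sub_zero, abs_of_nonneg (hc s).1] at h1
    rw [Real.norm_eq_abs] at h2
    have h3 : |max 0 (min s R) - max 0 (min s' R)| ≤ |s - s'| := by
      refine (abs_max_sub_max_le_max _ _ _ _).trans ?_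
      refine max_le (by simp) ?_
      refine (abs_min_sub_min_le_max _ _ _ _).trans ?_
      exact max_le le_rfl (by simp)
    have h4 : δ * |x - x'| * max 0 (min s R) ≤ δ * |x - x'| * R :=
      mul_le_mul_of_nonneg_left (hc s).2 (by positivity)
    have h5 : δ * |max 0 (min s R) - max 0 (min s' R)| ≤ δ * |s - s'| :=
      mul_le_mul_of_nonneg_left h3 hδ
    have h6 : 0 ≤ δ * |x - x'| := by positivity
    have h7 : 0 ≤ δ * R * |s - s'| := by positivity
    nlinarith


/-! ### the letter -/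

/-- cutoff -/
noncomputable def chi (ρ S : ℝ) : ℝ := sT (ρ + 2 - S)
noncomputable def chi' (ρ S : ℝ) : ℝ := -deriv sT (ρ + 2 - S)

lemma chi_hd (ρ S : ℝ) : HasDerivAt (chi ρ) (chi' ρ S) S := by
  have h1 : HasDerivAt (fun S : ℝ => ρ + 2 - S) (-1) S := by
    simpa using (hasDerivAt_id S).const_sub (ρ + 2)
  have := (sT_hd (ρ + 2 - S)).comp S h1
  have e : chi' ρ S = deriv sT (ρ + 2 - S) * (-1) := by unfold chi'; ring
  rw [e]
  exact this

lemma chi'_hd (ρ S : ℝ) : HasDerivAt (chi' ρ) (deriv (deriv sT) (ρ + 2 - S)) S := by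
  have h1 : HasDerivAt (fun S : ℝ => ρ + 2 - S) (-1) S := by
    simpa using (hasDerivAt_id S).const_sub (ρ + 2)
  have := ((sT_hd2 (ρ + 2 - S)).comp S h1).neg
  have e : deriv (deriv sT) (ρ + 2 - S) = -(deriv (deriv sT) (ρ + 2 - S) * (-1)) := by ring
  rw [e]
  exact this

lemma chi_zero {ρ S : ℝ} (h : ρ + 2 ≤ S) : chi ρ S = 0 :=
  Real.smoothTransition.zero_of_nonpos (by linarith)
lemma chi_one {ρ S : ℝ} (h : S ≤ ρ + 1) : chi ρ S = 1 :=
  Real.smoothTransition.one_of_one_le (by linarith)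
lemma chi'_zero {ρ S : ℝ} (h : ρ + 2 ≤ S) : chi' ρ S = 0 := by
  unfold chi'; rw [sT_d0 (by linarith), neg_zero]
lemma chi'_one {ρ S : ℝ} (h : S ≤ ρ + 1) : chi' ρ S = 0 := by
  unfold chi'; rw [sT_d1 (by linarith), neg_zero]
lemma chi_nonneg (ρ S : ℝ) : 0 ≤ chi ρ S := Real.smoothTransition.nonneg _
lemma chi_le (ρ S : ℝ) : chi ρ S ≤ 1 := Real.smoothTransition.le_one _

lemma BL_chi (ρ : ℝ) : BL (fun _ s => chi ρ s) := by
  obtain ⟨B, hB, b1, b2⟩ := sT_bounds
  refine ⟨B + 1, by positivity, fun _ s => ?_, fun x s x' s' => ?_⟩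
  · rw [abs_of_nonneg (chi_nonneg _ _)]; linarith [chi_le ρ s]
  · have := lip_of_deriv (chi ρ) (chi' ρ) B (chi_hd ρ) (fun y => by
      unfold chi'; rw [abs_neg]; exact b1 _) s s'
    have h1 := abs_nonneg (x - x')
    have h2 := abs_nonneg (s - s')
    nlinarith [mul_nonneg hB h1]

lemma BL_chi' (ρ : ℝ) : BL (fun _ s => chi' ρ s) := by
  obtain ⟨B, hB, b1, b2⟩ := sT_bounds
  refine ⟨B, hB, fun _ s => ?_, fun x s x' s' => ?_⟩
  · unfold chi'; rw [abs_neg]; exact b1 _
  · have := lip_of_deriv (chi' ρ) _ B (chi'_hd ρ) (fun y => b2 _) s s'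
    have h1 := abs_nonneg (x - x')
    nlinarith [mul_nonneg hB h1]

theorem t_gen (h1 : S_core) (h2 : S_pot) : S_gen := by
  intro s0 hs0 ρ hρ T e he hes0 he1 hT
  obtain ⟨B, hB, b1, b2⟩ := sT_bounds
  have hδpos : 0 < e / (16 * (B + 1) * (ρ + 3)) := by positivity
  refine ⟨e / (16 * (B + 1) * (ρ + 3)), hδpos, ?_⟩
  intro u v hst
  set δ := e / (16 * (B + 1) * (ρ + 3)) with hδdef
  have hBρ : 0 < 16 * (B + 1) * (ρ + 3) := by positivity
  have hδe : δ * (16 * (B + 1) * (ρ + 3)) = e := div_mul_cancel₀ _ hBρ.ne'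
  have hd1 : 4 * δ * (ρ + 3) ≤ 1 / 4 := by
    have : 0 ≤ δ * (ρ + 3) * B := by positivity
    nlinarith
  have hd2 : 4 * δ * (B + 1) ≤ 1 / 2 := by
    have : 0 ≤ δ * (B + 1) * ρ := by positivity
    nlinarith
  have hd3 : 4 * δ ≤ e / 4 := by
    have : 0 ≤ δ * ρ := by positivity
    have h3 : 0 ≤ δ * (ρ + 3) * B := by positivity
    nlinarith
  have hd0 : 4 * δ ≤ 1 / 4 := by linarith
  obtain ⟨hu, hv, hper, hz, hJ⟩ := hst
  obtain ⟨σ, hσ, hσ1, hσ2, hp, hq, hcl⟩ := h1 u v δ (by linarith) hu hv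
  set p : ℝ × ℝ → ℝ := fun z => σ z - z.2 with hpdef
  set q : ℝ × ℝ → ℝ := fun z => u (z.1, σ z) with hqdef
  have hqc : Continuous q := hq.1.continuous
  -- sigma below s0
  have hσ0 : ∀ x S, S ≤ s0 → σ (x, S) = S := by
    intro x S hS
    have := hσ1 x S
    rw [(hz x S hS).2, add_zero] at this
    exact this
  have hp0 : ∀ x S, S ≤ s0 → p (x, S) = 0 := by
    intro x S hS
    simp only [hpdef]
    rw [hσ0 x S hS, sub_self]
  have hq0 : ∀ x S, S ≤ s0 → q (x, S) = 0 := by
    intro x S hS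
    simp only [hqdef]
    rw [hσ0 x S hS]
    exact (hz x S hS).1
  -- periodicity
  have hσper : ∀ x S, σ (x + 1, S) = σ (x, S) := by
    intro x S
    have h := hσ1 (x + 1) (σ (x, S))
    rw [(hper x _).2, hσ2] at h
    exact h
  have hpper : ∀ x S, p (x + 1, S) = p (x, S) := by
    intro x S
    simp only [hpdef]
    rw [hσper]
  have hqper : ∀ x S, q (x + 1, S) = q (x, S) := by
    intro x S
    simp only [hqdef]
    rw [hσper, (hper x _).1]
  have hpb : ∀ x S, |p (x, S)| ≤ 4 * δ := fun x S => (hp.2 (x, S)).1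
  have hqb : ∀ x S, |q (x, S)| ≤ 4 * δ := fun x S => (hq.2 (x, S)).1
  -- the form is closed on the strip
  have hclosed : ∀ x ∈ (Set.univ : Set ℝ), ∀ y ∈ Set.Iio (ρ + 5 / 2), ps p (x, y) = px q (x, y) := by
    intro x _ y hy
    apply hcl
    apply hJ
    have h := abs_le.1 (hpb x y)
    have hy' : y < ρ + 5 / 2 := hy
    have : σ (x, y) = y + p (x, y) := by simp only [hpdef]; ring
    rw [this]
    linarith [h.2]
  have hpot := h2 p q Set.univ (Set.Iio (ρ + 5 / 2)) hp.1 hq.1 isOpen_univ isOpen_Iio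
    Set.ordConnected_univ Set.ordConnected_Iio (Set.mem_univ _)
    (show (0 : ℝ) < ρ + 5 / 2 by linarith) hclosed
  have hG0 : ∀ x S, S < ρ + 5 / 2 → HasDerivAt (fun y => G0 q y S) (p (x, S)) x := by
    intro x S hS
    have h := hpot x (Set.mem_univ _) S hS
    have hc : HasDerivAt (fun y : ℝ => ((y, S) : ℝ × ℝ)) (1, 0) x :=
      (hasDerivAt_id x).prodMk (hasDerivAt_const x S)
    have h3 := h.comp_hasDerivAt x hc
    have e1 : (fun y : ℝ => G0 q y S) = (fun z : ℝ × ℝ => (∫ t in (0 : ℝ)..z.1, p (t, 0)) +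
        ∫ t in (0 : ℝ)..z.2, q (z.1, t)) ∘ (fun y : ℝ => ((y, S) : ℝ × ℝ)) := by
      funext y
      simp only [Function.comp, G0]
      have : (∫ t in (0 : ℝ)..y, p (t, 0)) = 0 := by
        rw [intervalIntegral.integral_congr (g := fun _ => (0 : ℝ))]
        · simp
        · intro t _
          exact hp0 t 0 hs0.le
      rw [this, zero_add]
    rw [e1]
    simpa using h3
  have hG0S : ∀ x S, HasDerivAt (fun y => G0 q x y) (q (x, S)) S := by
    intro x S
    have hc : Continuous (fun t => q (x, t)) := by fun_prop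
    exact intervalIntegral.integral_hasDerivAt_right (hc.intervalIntegrable _ _)
      (hc.stronglyMeasurableAtFilter _ _) hc.continuousAt
  have hG0z : ∀ x S, S ≤ s0 → G0 q x S = 0 := by
    intro x S hS
    unfold G0
    rw [intervalIntegral.integral_congr (g := fun _ => (0 : ℝ))]
    · simp
    · intro t ht
      refine hq0 x t ?_
      have := (Set.mem_uIcc.1 ht)
      rcases this with h | h
      · linarith [h.2]
      · linarith [h.2]
  have hG0per : ∀ x S, G0 q (x + 1) S = G0 q x S := by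
    intro x S
    unfold G0
    refine intervalIntegral.integral_congr (fun t _ => hqper x t)
  have hG0b : ∀ x S, S ≤ ρ + 3 → |G0 q x S| ≤ 1 / 4 := by
    intro x S hS
    rcases le_or_gt S 0 with h | h
    · rw [hG0z x S (by linarith)]; norm_num
    · have := intervalIntegral.norm_integral_le_of_norm_le_const (a := 0)
        (b := S) (f := fun t => q (x, t)) (C := 4 * δ)
        (fun t _ => by simpa [Real.norm_eq_abs] using hqb x t)
      rw [Real.norm_eq_abs, sub_zero, abs_of_pos h] at this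
      refine this.trans ?_
      have : 4 * δ * S ≤ 4 * δ * (ρ + 3) := mul_le_mul_of_nonneg_left hS (by positivity)
      linarith
  have hdchi : ∀ S, |chi' ρ S| ≤ B := fun S => by
    unfold chi'; rw [abs_neg]; exact b1 _
  refine ⟨⟨fun x S => chi ρ S * G0 q x S, fun x S => chi ρ S * p (x, S),
    fun x S => chi' ρ S * G0 q x S + chi ρ S * q (x, S)⟩, ?_, ?_⟩
  · constructor
    · -- dx
      intro x s
      show HasDerivAt (fun y => chi ρ s * G0 q y s) (chi ρ s * p (x, s)) x
      rcases lt_or_ge s (ρ + 5 / 2) with h | h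
      · exact (hG0 x s h).const_mul _
      · rw [chi_zero (by linarith)]
        simpa using hasDerivAt_const x (0 : ℝ)
    · -- ds
      intro x s
      exact (chi_hd ρ s).mul (hG0S x s)
    · -- per
      intro x s
      show chi ρ s * G0 q (x + 1) s = chi ρ s * G0 q x s
      rw [hG0per]
    · -- lip
      have A1 : BL (fun x s => chi ρ s * p (x, s)) := (BL_chi ρ).mul (BL_of_small hp (by positivity))
      have A2 : BL (fun x s => chi' ρ s * G0 q x (max 0 (min s (ρ + 3))) + chi ρ s * q (x, s)) :=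
        ((BL_chi' ρ).mul (BL_G0 hq (by positivity) (ρ + 3) (by positivity))).add
          ((BL_chi ρ).mul (BL_of_small hq (by positivity)))
      have A3 : (fun x s => chi' ρ s * G0 q x (max 0 (min s (ρ + 3))) + chi ρ s * q (x, s)) =
          (fun x s => chi' ρ s * G0 q x s + chi ρ s * q (x, s)) := by
        funext x s
        rcases le_or_gt s (ρ + 1) with h | h
        · rw [chi'_one h]; simp
        · rcases le_or_gt s (ρ + 2) with h' | h'
          · rw [min_eq_left (by linarith), max_eq_right (by linarith)]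
          · rw [chi'_zero h'.le]; simp
      rw [A3] at A2
      obtain ⟨K, hK, _, a2⟩ := A1
      obtain ⟨L, hL, _, c2⟩ := A2
      refine ⟨K + L, by positivity, fun x s x' s' => ⟨?_, ?_⟩⟩
      · refine (a2 x s x' s').trans (mul_le_mul_of_nonneg_right (by linarith) (by positivity))
      · refine (c2 x s x' s').trans (mul_le_mul_of_nonneg_right (by linarith) (by positivity))
    · -- half
      intro x s s'
      show |chi ρ s * p (x, s) - chi ρ s' * p (x, s')| ≤ |s - s'| / 2
      have hd : ∀ y, HasDerivAt (fun y => chi ρ y * p (x, y))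
          (chi' ρ y * p (x, y) + chi ρ y * fderiv ℝ p (x, y) (0, 1)) y := by
        intro y
        have h3 : HasDerivAt (fun y => p (x, y)) (fderiv ℝ p (x, y) (0, 1)) y := by
          have hc : HasDerivAt (fun y : ℝ => ((x, y) : ℝ × ℝ)) (0, 1) y :=
            (hasDerivAt_const y x).prodMk (hasDerivAt_id y)
          exact ((hp.1.differentiable (by simp) (x, y)).hasFDerivAt).comp_hasDerivAt y hc
        exact (chi_hd ρ y).mul h3
      have := lip_of_deriv _ _ (1 / 2) hd (fun y => ?_) s s'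
      · linarith
      · refine (abs_add_le _ _).trans ?_
        rw [abs_mul, abs_mul]
        have h3 : |chi' ρ y| * |p (x, y)| ≤ B * (4 * δ) :=
          mul_le_mul (hdchi y) (hpb x y) (abs_nonneg _) hB
        have h4 : |fderiv ℝ p (x, y) (0, 1)| ≤ 4 * δ := by
          have h5 := (fderiv ℝ p (x, y)).le_opNorm (0, 1)
          rw [Real.norm_eq_abs] at h5
          refine h5.trans ?_
          have h6 := (hp.2 (x, y)).2
          have h7 : ‖((0 : ℝ), (1 : ℝ))‖ = 1 := by simp [Prod.norm_mk]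
          rw [h7, mul_one]
          exact h6
        have h5 : |chi ρ y| * |fderiv ℝ p (x, y) (0, 1)| ≤ 1 * (4 * δ) := by
          refine mul_le_mul ?_ h4 (abs_nonneg _) zero_le_one
          rw [abs_of_nonneg (chi_nonneg _ _)]
          exact chi_le _ _
        nlinarith
    · -- zero
      intro x s hs
      show chi ρ s * G0 q x s = 0 ∧ chi ρ s * p (x, s) = 0 ∧
        chi' ρ s * G0 q x s + chi ρ s * q (x, s) = 0
      rcases hs with h | h
      · have h' : s ≤ s0 := by linarith
        rw [hG0z x s h', hp0 x s h', hq0 x s h']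
        simp
      · have h' : ρ + 2 ≤ s := by linarith
        rw [chi_zero h', chi'_zero h']
        simp
    · -- small
      intro x s
      show |chi ρ s * G0 q x s| ≤ 1 / 4 ∧ |chi ρ s * p (x, s)| ≤ e / 4
      rw [abs_mul, abs_mul, abs_of_nonneg (chi_nonneg _ _)]
      constructor
      · rcases le_or_gt s (ρ + 3) with h | h
        · have h3 := mul_le_mul (chi_le ρ s) (hG0b x s h) (abs_nonneg _) zero_le_one
          linarith
        · rw [chi_zero (by linarith)]
          norm_num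
      · have h3 := mul_le_mul (chi_le ρ s) (hpb x s) (abs_nonneg _) zero_le_one
        linarith
  · -- relation
    intro x s hs
    show v (x, s) + chi ρ (s + v (x, s)) * p (x, s + v (x, s)) = 0 ∧
      u (x, s) = chi' ρ (s + v (x, s)) * G0 q x (s + v (x, s)) +
        chi ρ (s + v (x, s)) * q (x, s + v (x, s))
    have hvb := abs_le.1 (hv.2 (x, s)).1
    have hS : s + v (x, s) ≤ ρ + 1 := by linarith [hvb.2]
    rw [chi_one hS, chi'_one hS]
    have h3 := hσ1 x s
    constructor
    · simp only [hpdef]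
      rw [h3]
      ring
    · simp only [hqdef]
      rw [h3]
      ring

end Pool.Agent.W357.DP
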